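import Pool.Agent.H175G.Frame0

/-! T01 of `h175g_tasks`: the attachment lemmas (helper51). -/

set_option autoImplicit false

namespace Pool.Agent.H51R3.Attach

open Finset Classical
open Pool.Agent.H175R2 (DT nt on cpt Cn P4Free mem_on nt_le_of_label nt_le_of_inj nt_module nt_closed
  dt_cograph nt_le_pow)
open Pool.Agent.H175G

section

variable {V : Type} {G : SimpleGraph V} {Λ β : Type} [Fintype Λ] {K K' : ℕ}
  {V0 W : Finset V} {lab : V → Λ} {F : Λ → Λ → Prop} {b : V → β}

/-- the blocks meeting `A` -/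
noncomputable def hat (V0 W : Finset V) (b : V → β) (A : Finset V) : Finset V :=
  (V0 ∪ W).filter (fun y => ∃ x ∈ A, b y = b x)

lemma mem_hat {A : Finset V} {y : V} : y ∈ hat V0 W b A ↔ y ∈ V0 ∪ W ∧ ∃ x ∈ A, b y = b x := by
  unfold hat
  rw [mem_filter]

lemma hat_sub {A : Finset V} : hat V0 W b A ⊆ V0 ∪ W := filter_subset _ _

/-- one block in the large ambient set -/
lemma blk_dt (h1 : ∀ x ∈ V0, ∀ y ∈ V0, b x = b y → x = y)
    (h2 : ∀ x ∈ V0 ∪ W, BD G K' ((V0 ∪ W).filter (fun y => b y = b x)))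
    (h3 : ∀ x ∈ W, ∀ y ∈ V0 ∪ W, b x ≠ b y → (G.Adj x y ↔ F (lab x) (lab y)))
    (x : V) (hx : x ∈ V0 ∪ W) :
    DT G ((K' + 1) * (Fintype.card Λ + 1)) (V0 ∪ W) (hat V0 W b {x}) := by
  have e : hat V0 W b {x} = (V0 ∪ W).filter (fun y => b y = b x) := by
    ext y
    rw [mem_hat, mem_filter]
    simp
  rw [e]
  have hne : ((V0 ∪ W).filter (fun y => b y = b x)).Nonempty := ⟨x, mem_filter.2 ⟨hx, rfl⟩⟩
  have key := BD.ambient (R := V0 ∪ W) (h2 x hx) hne (filter_subset _ _)
    (Finset.univ : Finset (Option Λ)) (fun y => if y ∈ W then some (lab y) else none)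
    (fun _ _ => Finset.mem_univ _) (by
      intro y hy y' hy' hl z hz hzn
      rw [mem_filter] at hy hy'
      have hbz : b z ≠ b x := fun h => hzn (mem_filter.2 ⟨hz, h⟩)
      by_cases hyW : y ∈ W
      · by_cases hyW' : y' ∈ W
        · simp only [hyW, hyW', if_true, Option.some.injEq] at hl
          rw [h3 y hyW z hz (by rw [hy.2]; exact hbz.symm),
            h3 y' hyW' z hz (by rw [hy'.2]; exact hbz.symm), hl]
        · simp [hyW, hyW'] at hl
      · by_cases hyW' : y' ∈ W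
        · simp [hyW, hyW'] at hl
        · have hy0 : y ∈ V0 := (mem_union.1 hy.1).resolve_right hyW
          have hy0' : y' ∈ V0 := (mem_union.1 hy'.1).resolve_right hyW'
          rw [h1 y hy0 y' hy0' (hy.2.trans hy'.2.symm)])
  rw [Finset.card_univ, Fintype.card_option] at key
  exact key

/-- the tree of `V0` with blocks -/
lemma hat_dt (h1 : ∀ x ∈ V0, ∀ y ∈ V0, b x = b y → x = y)
    (h2 : ∀ x ∈ V0 ∪ W, BD G K' ((V0 ∪ W).filter (fun y => b y = b x)))
    (h3 : ∀ x ∈ W, ∀ y ∈ V0 ∪ W, b x ≠ b y → (G.Adj x y ↔ F (lab x) (lab y)))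
    {KK : ℕ} (hK1 : (K' + 1) * (Fintype.card Λ + 1) ≤ KK)
    (hK2 : Fintype.card Λ + (K + 1) * Fintype.card Λ ≤ KK)
    {A : Finset V} (hA : DT G K V0 A) : A ⊆ V0 → DT G KK (V0 ∪ W) (hat V0 W b A) := by
  induction hA with
  | leaf x =>
    intro hx
    exact (blk_dt h1 h2 h3 x (mem_union_left _ (hx (mem_singleton_self x)))).mono hK1
  | @node A B hd _ _ h iA iB =>
    intro hAB
    have hA := iA (subset_union_left.trans hAB)
    have hB := iB (subset_union_right.trans hAB)
    have e : hat V0 W b (A ∪ B) = hat V0 W b A ∪ hat V0 W b B := by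
      ext y
      simp only [mem_hat, mem_union]
      constructor
      · rintro ⟨h4, x, h5 | h5, h6⟩
        · exact Or.inl ⟨h4, x, h5, h6⟩
        · exact Or.inr ⟨h4, x, h5, h6⟩
      · rintro (⟨h4, x, h5, h6⟩ | ⟨h4, x, h5, h6⟩)
        · exact ⟨h4, x, Or.inl h5, h6⟩
        · exact ⟨h4, x, Or.inr h5, h6⟩
    have hdis : Disjoint (hat V0 W b A) (hat V0 W b B) := by
      rw [Finset.disjoint_left]
      intro y hy hy'
      obtain ⟨-, a, ha, hab⟩ := mem_hat.1 hy
      obtain ⟨-, a', ha', hab'⟩ := mem_hat.1 hy'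
      have := h1 a (hAB (mem_union_left _ ha)) a' (hAB (mem_union_right _ ha'))
        (hab.symm.trans hab')
      rw [this] at ha
      exact (Finset.disjoint_left.1 hd) ha ha'
    rw [e]
    refine DT.node hdis hA hB ?_
    rw [← e]
    set C := A ∪ B with hC
    have hins : (insert ∅ (C.image (on G V0 C))).card ≤ nt G V0 C + 1 := by
      unfold nt
      by_cases h : ∅ ∈ C.image (on G V0 C)
      · rw [insert_eq_of_mem h, card_erase_of_mem h]
        have : 0 < (C.image (on G V0 C)).card := card_pos.2 ⟨_, h⟩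
        omega
      · rw [card_insert_of_notMem h, erase_eq_of_notMem h]
    have hlab : nt G (V0 ∪ W) (hat V0 W b C) ≤ ((Finset.univ : Finset Λ).disjSum
        ((insert ∅ (C.image (on G V0 C))) ×ˢ (Finset.univ : Finset Λ))).card := by
      refine nt_le_of_label _ (fun x => if x ∈ W then Sum.inl (lab x) else
        Sum.inr (on G V0 C x, lab x)) ?_ ?_
      · intro x hx _
        by_cases hxW : x ∈ W
        · simp [hxW]
        · obtain ⟨hxR, c, hc, hxc⟩ := mem_hat.1 hx
          have hx0 : x ∈ V0 := (mem_union.1 hxR).resolve_right hxW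
          have hxC : x ∈ C := by
            rw [h1 x hx0 c (hAB hc) hxc]; exact hc
          simp only [hxW, if_false, Finset.inr_mem_disjSum, mem_product, Finset.mem_univ, and_true]
          exact mem_insert_of_mem (mem_image_of_mem _ hxC)
      · intro x hx y hy _ _ hl
        obtain ⟨hxR, c, hc, hxc⟩ := mem_hat.1 hx
        obtain ⟨hyR, c', hc', hyc⟩ := mem_hat.1 hy
        have hbx : ∀ z ∈ V0 ∪ W, z ∉ hat V0 W b C → b x ≠ b z := by
          intro z hz hzn h
          exact hzn (mem_hat.2 ⟨hz, c, hc, by rw [← h, hxc]⟩)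
        have hby : ∀ z ∈ V0 ∪ W, z ∉ hat V0 W b C → b y ≠ b z := by
          intro z hz hzn h
          exact hzn (mem_hat.2 ⟨hz, c', hc', by rw [← h, hyc]⟩)
        have main : ∀ z ∈ V0 ∪ W, z ∉ hat V0 W b C → (G.Adj x z ↔ G.Adj y z) := by
          intro z hz hzn
          by_cases hxW : x ∈ W
          · by_cases hyW : y ∈ W
            · simp only [hxW, hyW, if_true, Sum.inl.injEq] at hl
              rw [h3 x hxW z hz (hbx z hz hzn), h3 y hyW z hz (hby z hz hzn), hl]
            · simp [hxW, hyW] at hl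
          · by_cases hyW : y ∈ W
            · simp [hxW, hyW] at hl
            · simp only [hxW, hyW, if_false, Sum.inr.injEq, Prod.mk.injEq] at hl
              by_cases hzW : z ∈ W
              · rw [G.adj_comm x z, G.adj_comm y z, h3 z hzW x hxR (hbx z hz hzn).symm,
                  h3 z hzW y hyR (hby z hz hzn).symm, hl.2]
              · have hz0 : z ∈ V0 := (mem_union.1 hz).resolve_right hzW
                have hzC : z ∉ C := fun h => hzn (mem_hat.2 ⟨hz, z, h, rfl⟩)
                have e1 : z ∈ on G V0 C x ↔ z ∈ on G V0 C y := by rw [hl.1]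
                rw [mem_on, mem_on] at e1
                constructor
                · intro h; exact (e1.1 ⟨⟨hz0, hzC⟩, h⟩).2
                · intro h; exact (e1.2 ⟨⟨hz0, hzC⟩, h⟩).2
        ext z
        rw [mem_on, mem_on]
        constructor
        · rintro ⟨⟨h4, h5⟩, h6⟩; exact ⟨⟨h4, h5⟩, (main z h4 h5).1 h6⟩
        · rintro ⟨⟨h4, h5⟩, h6⟩; exact ⟨⟨h4, h5⟩, (main z h4 h5).2 h6⟩
    refine hlab.trans ?_
    rw [Finset.card_disjSum, card_product, Finset.card_univ]
    refine le_trans (Nat.add_le_add_left (Nat.mul_le_mul_right _ (hins.trans ?_)) _) hK2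
    omega

/-- closed sets containing `V0` -/
lemma closed_nt (h3 : ∀ x ∈ W, ∀ y ∈ V0 ∪ W, b x ≠ b y → (G.Adj x y ↔ F (lab x) (lab y)))
    {S : Finset V} (hS : S ⊆ V0 ∪ W) (h0 : V0 ⊆ S)
    (hcl : ∀ x ∈ S, ∀ y ∈ V0 ∪ W, b y = b x → y ∈ S) :
    nt G (V0 ∪ W) S ≤ Fintype.card Λ := by
  rw [← Finset.card_univ]
  refine nt_le_of_label _ lab (fun _ _ _ => Finset.mem_univ _) ?_
  intro x hx y hy _ _ hl
  have main : ∀ z ∈ V0 ∪ W, z ∉ S → (G.Adj x z ↔ G.Adj y z) := by
    intro z hz hzn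
    have hzW : z ∈ W := (mem_union.1 hz).resolve_left (fun h => hzn (h0 h))
    rw [G.adj_comm x z, G.adj_comm y z,
      h3 z hzW x (hS hx) (fun h => hzn (hcl x hx z hz h)),
      h3 z hzW y (hS hy) (fun h => hzn (hcl y hy z hz h)), hl]
  ext z
  rw [mem_on, mem_on]
  constructor
  · rintro ⟨⟨h4, h5⟩, h6⟩; exact ⟨⟨h4, h5⟩, (main z h4 h5).1 h6⟩
  · rintro ⟨⟨h4, h5⟩, h6⟩; exact ⟨⟨h4, h5⟩, (main z h4 h5).2 h6⟩

/-- adding the other blocks one after the other -/
lemma add_blocks (h1 : ∀ x ∈ V0, ∀ y ∈ V0, b x = b y → x = y)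
    (h2 : ∀ x ∈ V0 ∪ W, BD G K' ((V0 ∪ W).filter (fun y => b y = b x)))
    (h3 : ∀ x ∈ W, ∀ y ∈ V0 ∪ W, b x ≠ b y → (G.Adj x y ↔ F (lab x) (lab y)))
    {KK : ℕ} (hK1 : (K' + 1) * (Fintype.card Λ + 1) ≤ KK) (hK3 : Fintype.card Λ ≤ KK) :
    ∀ n : ℕ, ∀ S : Finset V, ((V0 ∪ W) \ S).card ≤ n → S ⊆ V0 ∪ W → V0 ⊆ S →
      (∀ x ∈ S, ∀ y ∈ V0 ∪ W, b y = b x → y ∈ S) → DT G KK (V0 ∪ W) S →
      DT G KK (V0 ∪ W) (V0 ∪ W) := by
  intro n
  induction n with
  | zero =>
    intro S hc hS _ _ hdt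
    rw [Nat.le_zero, card_eq_zero, sdiff_eq_empty_iff_subset] at hc
    rw [subset_antisymm hS hc] at hdt
    exact hdt
  | succ n ih =>
    intro S hc hS h0 hcl hdt
    by_cases hne : ((V0 ∪ W) \ S).Nonempty
    · obtain ⟨x, hx⟩ := hne
      obtain ⟨hxR, hxS⟩ := mem_sdiff.1 hx
      have hmemx : x ∈ hat V0 W b {x} := mem_hat.2 ⟨hxR, x, mem_singleton_self x, rfl⟩
      have hdis : Disjoint S (hat V0 W b {x}) := by
        rw [Finset.disjoint_left]
        intro y hy hy'
        obtain ⟨-, a, ha, hab⟩ := mem_hat.1 hy'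
        rw [mem_singleton] at ha
        subst ha
        exact hxS (hcl y hy a hxR hab.symm)
      have hcl' : ∀ z ∈ S ∪ hat V0 W b {x}, ∀ y ∈ V0 ∪ W, b y = b z → y ∈ S ∪ hat V0 W b {x} := by
        intro z hz y hy hyz
        rcases mem_union.1 hz with h | h
        · exact mem_union_left _ (hcl z h y hy hyz)
        · obtain ⟨-, a, ha, hab⟩ := mem_hat.1 h
          exact mem_union_right _ (mem_hat.2 ⟨hy, a, ha, hyz.trans hab⟩)
      have hS' : S ∪ hat V0 W b {x} ⊆ V0 ∪ W := union_subset hS hat_sub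
      refine ih (S ∪ hat V0 W b {x}) ?_ hS' (h0.trans subset_union_left) hcl' ?_
      · have hlt : ((V0 ∪ W) \ (S ∪ hat V0 W b {x})).card < ((V0 ∪ W) \ S).card := by
          refine card_lt_card ⟨sdiff_subset_sdiff (Subset.refl _) subset_union_left, fun h => ?_⟩
          exact (mem_sdiff.1 (h hx)).2 (mem_union_right _ hmemx)
        omega
      · exact DT.node hdis hdt ((blk_dt h1 h2 h3 x hxR).mono hK1)
          ((closed_nt h3 hS' (h0.trans subset_union_left) hcl').trans hK3)
    · rw [not_nonempty_iff_eq_empty, sdiff_eq_empty_iff_subset] at hne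
      rw [subset_antisymm hS hne] at hdt
      exact hdt

end

/-- T01, first part -/
theorem attach_stmt : AttachStmt := by
  refine ⟨fun K K' L => (K' + 1) * (L + 1) + (L + (K + 1) * L), ?_⟩
  intro V G Λ β _ K K' V0 W lab F b h0 h1 h2 h3 hne
  have hK1 : (K' + 1) * (Fintype.card Λ + 1) ≤
      (K' + 1) * (Fintype.card Λ + 1) + (Fintype.card Λ + (K + 1) * Fintype.card Λ) := by omega
  have hK2 : Fintype.card Λ + (K + 1) * Fintype.card Λ ≤
      (K' + 1) * (Fintype.card Λ + 1) + (Fintype.card Λ + (K + 1) * Fintype.card Λ) := by omega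
  have hK3 : Fintype.card Λ ≤
      (K' + 1) * (Fintype.card Λ + 1) + (Fintype.card Λ + (K + 1) * Fintype.card Λ) := by omega
  by_cases hV : V0.Nonempty
  · have hdt := hat_dt h1 h2 h3 hK1 hK2 (h0 hV) (Subset.refl _)
    refine add_blocks h1 h2 h3 hK1 hK3 _ (hat V0 W b V0) le_rfl hat_sub ?_ ?_ hdt
    · intro x hx
      exact mem_hat.2 ⟨mem_union_left _ hx, x, hx, rfl⟩
    · intro x hx y hy hyx
      obtain ⟨-, a, ha, hab⟩ := mem_hat.1 hx
      exact mem_hat.2 ⟨hy, a, ha, hyx.trans hab⟩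
  · rw [not_nonempty_iff_eq_empty] at hV
    obtain ⟨x, hx⟩ := hne
    refine add_blocks h1 h2 h3 hK1 hK3 _ (hat V0 W b {x}) le_rfl hat_sub ?_ ?_
      ((blk_dt h1 h2 h3 x hx).mono hK1)
    · rw [hV]; exact empty_subset _
    · intro z hz y hy hyz
      obtain ⟨-, a, ha, hab⟩ := mem_hat.1 hz
      exact mem_hat.2 ⟨hy, a, ha, hyz.trans hab⟩

/-- T01, second part -/
theorem two_stmt : TwoStmt := by
  refine ⟨fun K K' L => (K + 1) * L + (K' + 1) * L + K + K', ?_⟩
  intro V G Λ _ K K' A C lab F hd hA hC hadj hne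
  by_cases hAn : A.Nonempty
  · by_cases hCn : C.Nonempty
    · have h1 := BD.ambient (R := A ∪ C) hA hAn subset_union_left (Finset.univ : Finset Λ) lab
        (fun _ _ => Finset.mem_univ _) (by
          intro x hx y hy hl z hz hzn
          have hzC : z ∈ C := (mem_union.1 hz).resolve_left hzn
          rw [hadj x hx z hzC, hadj y hy z hzC, hl])
      have h2 := BD.ambient (R := A ∪ C) hC hCn subset_union_right (Finset.univ : Finset Λ) lab
        (fun _ _ => Finset.mem_univ _) (by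
          intro x hx y hy hl z hz hzn
          have hzA : z ∈ A := (mem_union.1 hz).resolve_right hzn
          rw [G.adj_comm x z, G.adj_comm y z, hadj z hzA x hx, hadj z hzA y hy, hl])
      rw [Finset.card_univ] at h1 h2
      refine DT.node hd (h1.mono (by dsimp only; omega)) (h2.mono (by dsimp only; omega)) ?_
      rw [nt_closed]
      · exact Nat.zero_le _
      · intro x _ z hz hzn
        exact absurd hz hzn
    · rw [not_nonempty_iff_eq_empty] at hCn
      rw [hCn, union_empty]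
      exact (hA hAn).mono (by dsimp only; omega)
  · rw [not_nonempty_iff_eq_empty] at hAn
    rw [hAn, empty_union] at hne ⊢
    exact (hC hne).mono (by dsimp only; omega)

end Pool.Agent.H51R3.Attach
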